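import Mathlib
import Pool.Agent.Helper75.LatinC

set_option autoImplicit false

/-!
Signed count of reduced Latin squares of order `p + 1` modulo the odd prime `p`
(two actions of the cyclic group of order `p`).
-/

namespace Pool.Agent.Helper60.Latin

open Equiv Finset Pool.Agent.Helper75.LatinA

section General

variable {p : ℕ} [hp : Fact p.Prime]

lemma card_fixed {X : Type*} [DecidableEq X] (s : Finset X) (Φ : X → X)
    (h1 : ∀ x ∈ s, Φ x ∈ s) (h2 : ∀ x ∈ s, Φ^[p] x = x) :
    ((s.card : ℕ) : ZMod p) = (((s.filter (fun x => Φ x = x)).card : ℕ) : ZMod p) := by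
  classical
  let F : Function.End {x // x ∈ s} := fun x => ⟨Φ x.1, h1 x.1 x.2⟩
  have hF : ∀ (n : ℕ) (x : {x // x ∈ s}), ((F ^ n : Function.End {x // x ∈ s}) x).1 = Φ^[n] x.1 := by
    intro n
    induction n with
    | zero => intro x; rfl
    | succ n ih =>
      intro x
      rw [pow_succ']
      show Φ ((F ^ n : Function.End {x // x ∈ s}) x).1 = _
      rw [ih, Function.iterate_succ_apply']
  have hF1 : F ^ p ^ 1 = 1 := by
    funext x
    apply Subtype.ext
    rw [pow_one, hF]
    exact h2 x.1 x.2
  have h3 := Equiv.Perm.card_fixedPoints_modEq (α := {x // x ∈ s}) hF1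
  rw [← ZMod.natCast_eq_natCast_iff] at h3
  rw [Fintype.card_coe] at h3
  rw [h3]
  congr 1
  rw [← Fintype.card_coe (s.filter (fun x => Φ x = x))]
  apply Fintype.card_congr
  refine ⟨fun x => ⟨x.1.1, ?_⟩, fun x => ⟨⟨x.1, (mem_filter.mp x.2).1⟩, ?_⟩, ?_, ?_⟩
  · rw [mem_filter]
    refine ⟨x.1.2, ?_⟩
    have := x.2
    rw [Function.mem_fixedPoints, Function.IsFixedPt] at this
    exact congrArg Subtype.val this
  · rw [Function.mem_fixedPoints, Function.IsFixedPt]
    apply Subtype.ext
    exact (mem_filter.mp x.2).2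
  · intro x; rfl
  · intro x; rfl

/-- Sums of invariant functions reduce to the fixed points modulo `p`. -/
lemma sum_fixed {X : Type*} [DecidableEq X] (s : Finset X) (Φ : X → X)
    (h1 : ∀ x ∈ s, Φ x ∈ s) (h2 : ∀ x ∈ s, Φ^[p] x = x) (f : X → ZMod p)
    (h3 : ∀ x ∈ s, f (Φ x) = f x) :
    ∑ x ∈ s, f x = ∑ x ∈ s.filter (fun x => Φ x = x), f x := by
  classical
  have key : ∀ t : Finset X, ∑ x ∈ t, f x =
      ∑ v : ZMod p, (((t.filter (fun x => f x = v)).card : ℕ) : ZMod p) * v := by
    intro t
    rw [← Finset.sum_fiberwise t f f]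
    apply Finset.sum_congr rfl
    intro v _
    rw [Finset.sum_congr rfl (fun x hx => (mem_filter.mp hx).2)]
    rw [Finset.sum_const, nsmul_eq_mul]
  rw [key s, key (s.filter (fun x => Φ x = x))]
  apply Finset.sum_congr rfl
  intro v _
  congr 1
  rw [card_fixed (p := p) (s.filter (fun x => f x = v)) Φ]
  · congr 2
    ext x
    simp only [mem_filter]
    tauto
  · intro x hx
    rw [mem_filter] at hx ⊢
    exact ⟨h1 x hx.1, by rw [h3 x hx.1]; exact hx.2⟩
  · intro x hx
    exact h2 x (mem_filter.mp hx).1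

end General

section Trans

variable {p : ℕ} [hp : Fact p.Prime]

lemma sign_addRight (h2 : p ≠ 2) (a : ZMod p) : Perm.sign (Equiv.addRight a : Perm (ZMod p)) = 1 := by
  have hodd : Odd p := hp.out.odd_of_ne_two h2
  have h : (Equiv.addRight a : Perm (ZMod p)) ^ p = 1 := by
    have h1 : ∀ n : ℕ, ∀ x : ZMod p, ((Equiv.addRight a : Perm (ZMod p)) ^ n) x = x + n * a := by
      intro n
      induction n with
      | zero => intro x; simp
      | succ n ih =>
        intro x
        rw [pow_succ', Perm.mul_apply, ih]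
        simp only [Equiv.coe_addRight]
        push_cast
        ring
    ext1 x
    rw [h1]
    simp
  have h3 : Perm.sign (Equiv.addRight a : Perm (ZMod p)) ^ p = 1 := by
    rw [← map_pow, h, map_one]
  rcases Int.units_eq_one_or (Perm.sign (Equiv.addRight a : Perm (ZMod p))) with h4 | h4
  · exact h4
  · rw [h4, hodd.neg_one_pow] at h3
    exact absurd h3 (by decide)

/-- Translations of `Option (ZMod p)`. -/
def tr (a : ZMod p) : Perm (Option (ZMod p)) := Equiv.optionCongr (Equiv.addRight a)

lemma tr_none (a : ZMod p) : tr a none = none := rfl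

lemma tr_some (a x : ZMod p) : tr a (some x) = some (x + a) := rfl

lemma tr_mul (a b : ZMod p) : tr a * tr b = tr (b + a) := by
  ext1 x
  cases x with
  | none => rfl
  | some x => simp only [Perm.mul_apply, tr_some, add_assoc]

lemma tr_zero : tr (0 : ZMod p) = 1 := by
  ext1 x
  cases x with
  | none => rfl
  | some x => simp [tr_some]

lemma tr_inv (a : ZMod p) : (tr a)⁻¹ = tr (-a) := by
  rw [inv_eq_iff_mul_eq_one, tr_mul, neg_add_cancel, tr_zero]

end Trans

end Pool.Agent.Helper60.Latin
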