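import Mathlib
import Pool.Agent.Helper60.Latin.DriskoA

set_option autoImplicit false

/-!
First action: conjugation by the translation `x ↦ x + 1`.  The fixed reduced Latin families of
order `p + 1` are the canonical orthomorphisms of `ZMod p`.
-/

namespace Pool.Agent.Helper60.Latin

open Equiv Finset Pool.Agent.Helper75.LatinA

variable {p : ℕ} [hp : Fact p.Prime]

/-- Conjugation action. -/
def Phi (T : Option (ZMod p) → Perm (Option (ZMod p))) :
    Option (ZMod p) → Perm (Option (ZMod p)) :=
  fun k => tr 1 * T ((tr (-1)) k) * (tr 1)⁻¹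

lemma tr_comp (a b : ZMod p) (k : Option (ZMod p)) : tr a (tr b k) = tr (b + a) k := by
  rw [← Perm.mul_apply, tr_mul]

lemma Phi_iter (T : Option (ZMod p) → Perm (Option (ZMod p))) (n : ℕ) (k : Option (ZMod p)) :
    (Phi^[n] T) k = tr (n : ZMod p) * T (tr (-(n : ZMod p)) k) * (tr (n : ZMod p))⁻¹ := by
  induction n generalizing k with
  | zero => simp [tr_zero]
  | succ n ih =>
    rw [Function.iterate_succ_apply']
    show tr 1 * (Phi^[n] T) ((tr (-1)) k) * (tr 1)⁻¹ = _
    rw [ih, tr_comp]
    have e1 : (-1 : ZMod p) + -(n : ZMod p) = -((n + 1 : ℕ) : ZMod p) := by push_cast; ring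
    rw [e1]
    have e2 : tr (1 : ZMod p) * tr (n : ZMod p) = tr (((n + 1 : ℕ) : ZMod p)) := by
      rw [tr_mul]; push_cast; rfl
    rw [← e2]
    group

lemma Phi_period (T : Option (ZMod p) → Perm (Option (ZMod p))) : Phi^[p] T = T := by
  funext k
  rw [Phi_iter]
  simp [tr_zero]

lemma Phi_sign (T : Option (ZMod p) → Perm (Option (ZMod p))) :
    ∏ k, ((Perm.sign (Phi T k) : ℤˣ) : ℤ) = ∏ k, ((Perm.sign (T k) : ℤˣ) : ℤ) := by
  have h : ∀ k, Perm.sign (Phi T k) = Perm.sign (T ((tr (-1)) k)) := by
    intro k
    unfold Phi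
    rw [Perm.sign_mul, Perm.sign_mul, Perm.sign_inv, mul_comm (Perm.sign (tr 1)), mul_assoc]
    rw [← sq, Int.units_sq, mul_one]
  simp only [h]
  exact Equiv.prod_comp (tr (-1)) (fun k => ((Perm.sign (T k) : ℤˣ) : ℤ))

lemma Phi_lat (T : Option (ZMod p) → Perm (Option (ZMod p))) (h : Lat T) : Lat (Phi T) := by
  intro i k k' hk
  simp only [Phi, Perm.mul_apply] at hk
  have h1 := (tr (1 : ZMod p)).injective hk
  have h2 := h _ h1
  exact (tr (-1 : ZMod p)).injective h2

lemma Phi_red (T : Option (ZMod p) → Perm (Option (ZMod p))) (h : Red none T) :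
    Red none (Phi T) := by
  constructor
  · intro k
    simp only [Phi, Perm.mul_apply, tr_inv, tr_none]
    rw [h.1, tr_comp, neg_add_cancel, tr_zero]
    rfl
  · intro k
    simp only [Phi, Perm.mul_apply, tr_inv]
    rw [h.2, tr_none]

/-- Canonical orthomorphisms. -/
def Orth (g : Perm (ZMod p)) : Prop := g 0 = 0 ∧ Function.Injective (fun x => g x - x)

/-- The family attached to an orthomorphism. -/
def fam (g : Perm (ZMod p)) : Option (ZMod p) → Perm (Option (ZMod p))
  | none => 1
  | some a => tr a * (Equiv.swap none (some 0) * Equiv.optionCongr g) * (tr a)⁻¹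

lemma sum_zmod (h2 : p ≠ 2) : ∑ x : ZMod p, x = 0 := by
  have h : ∑ x : ZMod p, x = - ∑ x : ZMod p, x := by
    conv_lhs => rw [← Equiv.sum_comp (Equiv.neg (ZMod p)) (fun x => x)]
    simp only [Equiv.neg_apply]
    exact Finset.sum_neg_distrib _
  have h3 : (2 : ZMod p) * ∑ x : ZMod p, x = 0 := by
    linear_combination h
  rcases mul_eq_zero.mp h3 with h4 | h4
  · exfalso
    have : ((2 : ℕ) : ZMod p) = 0 := by exact_mod_cast h4
    rw [ZMod.natCast_eq_zero_iff] at this
    exact h2 ((Nat.prime_dvd_prime_iff_eq hp.out Nat.prime_two).mp this)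
  · exact h4

lemma fix_conj (T : Option (ZMod p) → Perm (Option (ZMod p))) (h : Phi T = T)
    (a : ZMod p) (k : Option (ZMod p)) : T (tr a k) = tr a * T k * (tr a)⁻¹ := by
  have h1 : ∀ n : ℕ, Phi^[n] T = T := by
    intro n
    induction n with
    | zero => rfl
    | succ n ih => rw [Function.iterate_succ_apply', ih, h]
  have h2 := congrFun (h1 a.val) (tr a k)
  rw [Phi_iter, ZMod.natCast_zmod_val, tr_comp, add_neg_cancel, tr_zero] at h2
  simpa using h2.symm

section Fixed

/-- Auxiliary permutation. -/
def sw (T : Option (ZMod p) → Perm (Option (ZMod p))) : Perm (Option (ZMod p)) :=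
  Equiv.swap none (some 0) * T (some 0)

lemma sw_none (T : Option (ZMod p) → Perm (Option (ZMod p))) (hR : Red none T) :
    sw T none = none := by
  unfold sw
  rw [Perm.mul_apply, hR.1, Equiv.swap_apply_right]

/-- The orthomorphism attached to a fixed family. -/
noncomputable def gof (T : Option (ZMod p) → Perm (Option (ZMod p))) : Perm (ZMod p) :=
  Equiv.removeNone (sw T)

lemma gof_congr (T : Option (ZMod p) → Perm (Option (ZMod p))) (hR : Red none T) :
    Equiv.optionCongr (gof T) = sw T := by
  unfold gof
  ext1 x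
  cases x with
  | none => rw [Equiv.optionCongr_apply, Option.map_none, sw_none T hR]
  | some x =>
    rw [Equiv.optionCongr_apply, Option.map_some]
    apply Equiv.removeNone_some
    cases h : sw T (some x) with
    | some y => exact ⟨y, rfl⟩
    | none =>
      exfalso
      have h1 : sw T (some x) = sw T none := by rw [h, sw_none T hR]
      have := (sw T).injective h1
      exact absurd this (by simp)

lemma gof_apply (T : Option (ZMod p) → Perm (Option (ZMod p))) (hR : Red none T) (x : ZMod p) :
    some (gof T x) = sw T (some x) := by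
  rw [← gof_congr T hR]; rfl

lemma T_zero (T : Option (ZMod p) → Perm (Option (ZMod p))) (hR : Red none T) :
    T (some 0) = Equiv.swap none (some 0) * Equiv.optionCongr (gof T) := by
  rw [gof_congr T hR]
  unfold sw
  rw [← mul_assoc, Equiv.swap_mul_self, one_mul]

lemma gof_zero (T : Option (ZMod p) → Perm (Option (ZMod p))) (hR : Red none T) :
    gof T 0 = 0 := by
  have h := gof_apply T hR 0
  unfold sw at h
  rw [Perm.mul_apply, hR.2, Equiv.swap_apply_left] at h
  exact Option.some_injective _ h

lemma T_zero_some (T : Option (ZMod p) → Perm (Option (ZMod p))) (hR : Red none T)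
    (x : ZMod p) (hx : x ≠ 0) : T (some 0) (some x) = some (gof T x) := by
  rw [T_zero T hR, Perm.mul_apply, Equiv.optionCongr_apply, Option.map_some]
  apply Equiv.swap_apply_of_ne_of_ne
  · simp
  · intro h
    have h1 : gof T x = gof T 0 := by rw [gof_zero T hR]; exact Option.some_injective _ h
    exact hx ((gof T).injective h1)

lemma T_some_some (T : Option (ZMod p) → Perm (Option (ZMod p))) (hR : Red none T)
    (hF : Phi T = T) (a x : ZMod p) (hx : x ≠ a) :
    T (some a) (some x) = some (gof T (x - a) + a) := by
  have h1 : (some a : Option (ZMod p)) = tr a (some 0) := by rw [tr_some, zero_add]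
  rw [h1, fix_conj T hF, Perm.mul_apply, Perm.mul_apply, tr_inv, tr_some,
    T_zero_some T hR _ (by intro h; apply hx; rwa [← sub_eq_add_neg, sub_eq_zero] at h), tr_some,
    sub_eq_add_neg]

lemma T_none_some (T : Option (ZMod p) → Perm (Option (ZMod p))) (hR : Red none T)
    (hF : Phi T = T) : ∃ t : ZMod p, ∀ x, T none (some x) = some (t + x) := by
  cases h : T none (some 0) with
  | none =>
    exfalso
    have h1 : T none (some 0) = T none none := by rw [h, hR.1]
    exact absurd ((T none).injective h1) (by simp)
  | some t =>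
    refine ⟨t, fun x => ?_⟩
    have h2 := fix_conj T hF x none
    rw [tr_none] at h2
    rw [h2, Perm.mul_apply, Perm.mul_apply, tr_inv, tr_some, add_neg_cancel, h, tr_some]

lemma T_none_zero (h2 : p ≠ 2) (T : Option (ZMod p) → Perm (Option (ZMod p))) (hL : Lat T)
    (hR : Red none T) (hF : Phi T = T) :
    (∀ x, T none (some x) = some x) ∧ Function.Injective (fun x => gof T x - x) := by
  obtain ⟨t, ht⟩ := T_none_some T hR hF
  let h : ZMod p → ZMod p := fun d => if d = 0 then t else gof T d - d
  have h0 : ∀ d : ZMod p, T (if d = 0 then none else some (-d)) (some 0) = some (h d) := by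
    intro d
    by_cases hd : d = 0
    · simp only [hd, if_true, h]
      rw [ht, add_zero]
    · simp only [hd, if_false, h]
      rw [T_some_some T hR hF _ _ (by
        intro h3; apply hd; exact (neg_eq_zero.mp h3.symm)), sub_neg_eq_add, zero_add,
        sub_eq_add_neg]
  have hinj : Function.Injective h := by
    intro d d' hdd
    have h3 := h0 d
    rw [hdd, ← h0 d'] at h3
    have h4 := hL (some 0) h3
    by_cases hd : d = 0 <;> by_cases hd' : d' = 0
    · rw [hd, hd']
    · simp [hd, hd'] at h4
    · simp [hd, hd'] at h4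
    · simpa [hd, hd'] using h4
  have hbij : Function.Bijective h := Finite.injective_iff_bijective.mp hinj
  have hs1 : ∑ d, h d = 0 := by
    have := Equiv.sum_comp (Equiv.ofBijective h hbij) (fun x => x)
    simp only [Equiv.ofBijective_apply] at this
    rw [this, sum_zmod h2]
  have hs2 : ∑ d, gof T d = 0 := by
    have := Equiv.sum_comp (gof T) (fun x => x)
    rw [this, sum_zmod h2]
  have hs3 : ∀ d, h d = (gof T d - d) + (if d = 0 then t else 0) := by
    intro d
    by_cases hd : d = 0
    · simp [h, hd, gof_zero T hR]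
    · simp [h, hd]
  have ht0 : t = 0 := by
    simp only [hs3, Finset.sum_add_distrib, Finset.sum_sub_distrib, hs2, sum_zmod h2,
      Finset.sum_ite_eq', Finset.mem_univ, if_true] at hs1
    simpa using hs1
  constructor
  · intro x
    rw [ht, ht0, zero_add]
  · have : (fun x => gof T x - x) = h := by
      funext d
      rw [hs3, ht0]
      simp
    rw [this]
    exact hinj

end Fixed

end Pool.Agent.Helper60.Latin
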