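import Mathlib
import Pool.Agent.Helper60.Latin.DriskoB

set_option autoImplicit false

/-!
The reduction of the signed count of reduced families of order `p + 1` to orthomorphisms.
-/

namespace Pool.Agent.Helper60.Latin

open Equiv Finset Pool.Agent.Helper75.LatinA

variable {p : ℕ} [hp : Fact p.Prime]

lemma fam_none (g : Perm (ZMod p)) : fam g none = 1 := rfl

lemma fam_some (g : Perm (ZMod p)) (a : ZMod p) :
    fam g (some a) = tr a * (Equiv.swap none (some 0) * Equiv.optionCongr g) * (tr a)⁻¹ := rfl

lemma fam_some_none (g : Perm (ZMod p)) (a : ZMod p) : fam g (some a) none = some a := by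
  rw [fam_some, Perm.mul_apply, Perm.mul_apply, tr_inv, tr_none, Perm.mul_apply,
    Equiv.optionCongr_apply, Option.map_none, Equiv.swap_apply_left, tr_some, zero_add]

lemma fam_some_self (g : Perm (ZMod p)) (hg : g 0 = 0) (a : ZMod p) :
    fam g (some a) (some a) = none := by
  rw [fam_some, Perm.mul_apply, Perm.mul_apply, tr_inv, tr_some, Perm.mul_apply,
    Equiv.optionCongr_apply, Option.map_some, add_neg_cancel, hg, Equiv.swap_apply_right, tr_none]

lemma fam_some_some (g : Perm (ZMod p)) (hg : g 0 = 0) (a x : ZMod p) (hx : x ≠ a) :
    fam g (some a) (some x) = some (g (x - a) + a) := by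
  rw [fam_some, Perm.mul_apply, Perm.mul_apply, tr_inv, tr_some, Perm.mul_apply,
    Equiv.optionCongr_apply, Option.map_some, ← sub_eq_add_neg, Equiv.swap_apply_of_ne_of_ne,
    tr_some]
  · simp
  · intro h
    have h1 : g (x - a) = g 0 := by rw [hg]; exact Option.some_injective _ h
    exact hx (sub_eq_zero.mp (g.injective h1))

lemma fam_red (g : Perm (ZMod p)) (hg : g 0 = 0) : Red none (fam g) := by
  constructor
  · intro k
    cases k with
    | none => rfl
    | some a => exact fam_some_none g a
  · intro k
    cases k with
    | none => rfl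
    | some a => exact fam_some_self g hg a

lemma fam_lat (g : Perm (ZMod p)) (hg : Orth g) : Lat (fam g) := by
  intro i
  cases i with
  | none =>
    intro k k' hk
    simp only [(fam_red g hg.1).1] at hk
    exact hk
  | some x =>
    have key : ∀ a : ZMod p, a ≠ x → fam g (some a) (some x) = some ((g (x - a) - (x - a)) + x) := by
      intro a ha
      rw [fam_some_some g hg.1 a x (Ne.symm ha)]
      congr 1
      ring
    have knone : fam g none (some x) = some x := rfl
    have kself : fam g (some x) (some x) = none := fam_some_self g hg.1 x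
    have hz : ∀ a : ZMod p, a ≠ x → g (x - a) - (x - a) ≠ 0 := by
      intro a ha h
      have h1 : (fun y => g y - y) (x - a) = (fun y => g y - y) 0 := by
        simp only [hg.1, sub_zero]; exact h
      exact ha (sub_eq_zero.mp (hg.2 h1)).symm
    intro k k' hk
    simp only at hk
    cases k with
    | none =>
      cases k' with
      | none => rfl
      | some a' =>
        exfalso
        by_cases ha : a' = x
        · rw [ha, knone, kself] at hk; exact absurd hk (by simp)
        · rw [knone, key a' ha] at hk
          have := Option.some_injective _ hk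
          exact hz a' ha (by linear_combination -this)
    | some a =>
      cases k' with
      | none =>
        exfalso
        by_cases ha : a = x
        · rw [ha, knone, kself] at hk; exact absurd hk (by simp)
        · rw [knone, key a ha] at hk
          have := Option.some_injective _ hk
          exact hz a ha (by linear_combination this)
      | some a' =>
        by_cases ha : a = x <;> by_cases ha' : a' = x
        · rw [ha, ha']
        · exfalso
          rw [ha, kself, key a' ha'] at hk; exact absurd hk (by simp)
        · exfalso
          rw [ha', kself, key a ha] at hk; exact absurd hk (by simp)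
        · rw [key a ha, key a' ha'] at hk
          have h1 := Option.some_injective _ hk
          have h2 : (fun y => g y - y) (x - a) = (fun y => g y - y) (x - a') := by
            simp only
            linear_combination h1
          have h3 := hg.2 h2
          congr 1
          linear_combination -h3

lemma fam_fix (g : Perm (ZMod p)) : Phi (fam g) = fam g := by
  funext k
  cases k with
  | none =>
    show tr 1 * fam g (tr (-1) none) * (tr 1)⁻¹ = fam g none
    rw [tr_none, fam_none]
    simp
  | some a =>
    show tr 1 * fam g (tr (-1) (some a)) * (tr 1)⁻¹ = fam g (some a)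
    rw [tr_some, fam_some, fam_some]
    have h : tr (1 : ZMod p) * tr (a + -1) = tr a := by
      rw [tr_mul]; congr 1; ring
    rw [← h]
    group

lemma gof_fam (g : Perm (ZMod p)) (hg : g 0 = 0) : gof (fam g) = g := by
  have hR := fam_red g hg
  have h : Equiv.optionCongr (gof (fam g)) = Equiv.optionCongr g := by
    rw [gof_congr _ hR]
    unfold sw
    rw [fam_some, tr_zero]
    simp only [inv_one, mul_one, one_mul]
    rw [← mul_assoc, Equiv.swap_mul_self, one_mul]
  exact Equiv.optionCongr_injective h

lemma fam_gof (h2 : p ≠ 2) (T : Option (ZMod p) → Perm (Option (ZMod p))) (hL : Lat T)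
    (hR : Red none T) (hF : Phi T = T) : fam (gof T) = T := by
  funext k
  cases k with
  | none =>
    rw [fam_none]
    ext1 x
    cases x with
    | none => rw [hR.1]; rfl
    | some x => rw [(T_none_zero h2 T hL hR hF).1 x]; rfl
  | some a =>
    rw [fam_some, ← T_zero T hR, ← fix_conj T hF, tr_some, zero_add]

lemma fam_sign (h2 : p ≠ 2) (g : Perm (ZMod p)) :
    ∏ k, ((Perm.sign (fam g k) : ℤˣ) : ℤ) = - ((Perm.sign g : ℤˣ) : ℤ) := by
  have hodd : Odd p := hp.out.odd_of_ne_two h2
  have h : ∀ a : ZMod p, Perm.sign (fam g (some a)) = - Perm.sign g := by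
    intro a
    rw [fam_some, Perm.sign_mul, Perm.sign_mul, Perm.sign_inv, mul_comm (Perm.sign (tr a)),
      mul_assoc, ← sq, Int.units_sq, mul_one, Perm.sign_mul, Perm.sign_swap (by simp),
      Equiv.optionCongr_sign, neg_one_mul]
  rw [Fintype.prod_option, fam_none]
  simp only [h, Finset.prod_const, Finset.card_univ, ZMod.card]
  rcases Int.units_eq_one_or (Perm.sign g) with h4 | h4
  · rw [h4]; simp [hodd.neg_one_pow]
  · rw [h4]; simp

open Classical in
/-- The signed count of reduced families of order `p + 1` modulo `p` in terms of orthomorphisms. -/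
lemma redSum_orth (h2 : p ≠ 2) :
    ((redSum (none : Option (ZMod p)) : ℤ) : ZMod p) =
      - ∑ g ∈ (univ : Finset (Perm (ZMod p))).filter (fun g => Orth g),
        (((Perm.sign g : ℤˣ) : ℤ) : ZMod p) := by
  unfold redSum
  push_cast
  have h1 := sum_fixed (p := p)
    ((univ : Finset (Option (ZMod p) → Perm (Option (ZMod p)))).filter
      (fun T => Lat T ∧ Red none T)) Phi
    (by
      intro T hT
      simp only [mem_filter, mem_univ, true_and] at hT ⊢
      exact ⟨Phi_lat T hT.1, Phi_red T hT.2⟩)
    (fun T _ => Phi_period T)
    (fun T => ((∏ k, ((Perm.sign (T k) : ℤˣ) : ℤ) : ℤ) : ZMod p))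
    (by intro T _; simp only [Phi_sign])
  push_cast at h1
  refine Eq.trans ?_ (Eq.trans h1 ?_)
  · apply Finset.sum_congr _ (fun _ _ => rfl)
    ext T
    simp only [mem_filter]
  · rw [← Finset.sum_neg_distrib]
    refine Finset.sum_nbij' (fun T => gof T) (fun g => fam g) ?_ ?_ ?_ ?_ ?_
    · intro T hT
      simp only [mem_filter, mem_univ, true_and] at hT ⊢
      exact ⟨gof_zero T hT.1.2, (T_none_zero h2 T hT.1.1 hT.1.2 hT.2).2⟩
    · intro g hg
      simp only [mem_filter, mem_univ, true_and] at hg ⊢
      exact ⟨⟨fam_lat g hg, fam_red g hg.1⟩, fam_fix g⟩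
    · intro T hT
      simp only [mem_filter, mem_univ, true_and] at hT
      exact fam_gof h2 T hT.1.1 hT.1.2 hT.2
    · intro g hg
      simp only [mem_filter, mem_univ, true_and] at hg
      exact gof_fam g hg.1
    · intro T hT
      simp only [mem_filter, mem_univ, true_and] at hT
      have h3 := fam_sign h2 (gof T)
      rw [fam_gof h2 T hT.1.1 hT.1.2 hT.2] at h3
      have h4 := congrArg (fun z : ℤ => (z : ZMod p)) h3
      push_cast at h4
      exact h4

end Pool.Agent.Helper60.Latin
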