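import Mathlib
import Pool.Agent.Helper60.Latin.DriskoC

set_option autoImplicit false

/-!
Second action: translation of orthomorphisms; conclusion for orders `p + 1` and `p + 2`.
-/

namespace Pool.Agent.Helper60.Latin

open Equiv Finset Pool.Agent.Helper75.LatinA Pool.Agent.Helper75.LatinC

variable {p : ℕ} [hp : Fact p.Prime]

/-- Translation action on permutations fixing `0`. -/
def Psi (g : Perm (ZMod p)) : Perm (ZMod p) :=
  Equiv.addRight (-(g 1)) * g * Equiv.addRight 1

lemma Psi_apply (g : Perm (ZMod p)) (x : ZMod p) : Psi g x = g (x + 1) - g 1 := by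
  simp [Psi, Perm.mul_apply, sub_eq_add_neg]

lemma Psi_iter (g : Perm (ZMod p)) (hg : g 0 = 0) (n : ℕ) (x : ZMod p) :
    (Psi^[n] g) x = g (x + n) - g n := by
  induction n generalizing x with
  | zero => simp [hg]
  | succ n ih =>
    rw [Function.iterate_succ_apply', Psi_apply, ih, ih]
    have e1 : x + 1 + (n : ZMod p) = x + ((n + 1 : ℕ) : ZMod p) := by push_cast; ring
    have e2 : 1 + (n : ZMod p) = ((n + 1 : ℕ) : ZMod p) := by push_cast; ring
    rw [e1, e2]
    ring

lemma Psi_orth (g : Perm (ZMod p)) (hg : Orth g) : Orth (Psi g) := by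
  constructor
  · rw [Psi_apply, zero_add, sub_self]
  · intro x y h
    simp only [Psi_apply] at h
    have h1 : (fun z => g z - z) (x + 1) = (fun z => g z - z) (y + 1) := by
      simp only
      linear_combination h
    have h2 := hg.2 h1
    exact add_right_cancel h2

lemma Psi_sign (h2 : p ≠ 2) (g : Perm (ZMod p)) : Perm.sign (Psi g) = Perm.sign g := by
  unfold Psi
  rw [Perm.sign_mul, Perm.sign_mul, sign_addRight h2, sign_addRight h2, one_mul, mul_one]

/-- Multiplication by a unit. -/
def mulU (c : (ZMod p)ˣ) : Perm (ZMod p) := Units.mulLeft c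

lemma mulU_apply (c : (ZMod p)ˣ) (x : ZMod p) : mulU c x = c * x := rfl

lemma Psi_fixed (g : Perm (ZMod p)) (hg : g 0 = 0) (hf : Psi g = g) (x : ZMod p) :
    g x = g 1 * x := by
  have h1 : ∀ n : ℕ, g n = g 1 * n := by
    intro n
    induction n with
    | zero => simp [hg]
    | succ n ih =>
      have h2 := congrArg (fun e : Perm (ZMod p) => e n) hf
      simp only [Psi_apply] at h2
      push_cast
      linear_combination h2 + ih
  have h3 := h1 x.val
  rwa [ZMod.natCast_zmod_val] at h3

lemma mulU_orth (c : (ZMod p)ˣ) (hc : c ≠ 1) : Orth (mulU c) := by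
  constructor
  · rw [mulU_apply, mul_zero]
  · intro x y h
    simp only [mulU_apply] at h
    have h1 : ((c : ZMod p) - 1) * (x - y) = 0 := by linear_combination h
    rcases mul_eq_zero.mp h1 with h2 | h2
    · exfalso
      apply hc
      apply Units.ext
      rw [Units.val_one]
      exact sub_eq_zero.mp h2
    · exact sub_eq_zero.mp h2

lemma mulU_fixed (c : (ZMod p)ˣ) : Psi (mulU c) = mulU c := by
  ext1 x
  rw [Psi_apply, mulU_apply, mulU_apply, mulU_apply]
  ring

/-- The sign character. -/
def sgnHom : (ZMod p)ˣ →* ℤ where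
  toFun c := ((Perm.sign (mulU c) : ℤˣ) : ℤ)
  map_one' := by
    have : mulU (1 : (ZMod p)ˣ) = 1 := by ext1 x; simp [mulU_apply]
    rw [this]; simp
  map_mul' a b := by
    have : mulU (a * b) = mulU a * mulU b := by
      ext1 x; simp [mulU_apply, Perm.mul_apply, mul_assoc]
    rw [this, Perm.sign_mul]; simp

lemma sgnHom_ne (h2 : p ≠ 2) : (sgnHom : (ZMod p)ˣ →* ℤ) ≠ 1 := by
  obtain ⟨u, hu⟩ := IsCyclic.exists_generator (α := (ZMod p)ˣ)
  have h3 : 2 < p := lt_of_le_of_ne hp.out.two_le (Ne.symm h2)
  have hu1 : u ≠ 1 := by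
    intro h
    have h4 : (-1 : (ZMod p)ˣ) ∈ Subgroup.zpowers u := hu _
    rw [h, Subgroup.mem_zpowers_iff] at h4
    obtain ⟨k, hk⟩ := h4
    rw [one_zpow] at hk
    have h5 : (1 : ZMod p) = -1 := by
      have := congrArg Units.val hk
      simpa using this
    haveI : Fact (2 < p) := ⟨h3⟩
    exact ZMod.neg_one_ne_one h5.symm
  have hcyc : (mulU u).IsCycle := by
    refine ⟨1, ?_, ?_⟩
    · rw [mulU_apply, mul_one]
      intro h
      exact hu1 (Units.ext h)
    · intro y hy
      have hy0 : y ≠ 0 := by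
        intro h
        apply hy
        rw [h, mulU_apply, mul_zero]
      obtain ⟨k, hk⟩ := Subgroup.mem_zpowers_iff.mp (hu (Units.mk0 y hy0))
      refine ⟨k, ?_⟩
      have h6 : ∀ c : (ZMod p)ˣ, ∀ k : ℤ, (mulU c) ^ k = mulU (c ^ k) := by
        intro c k
        have hm : ∀ a b : (ZMod p)ˣ, mulU (a * b) = mulU a * mulU b := by
          intro a b
          ext1 x; simp [mulU_apply, Perm.mul_apply, mul_assoc]
        let H : (ZMod p)ˣ →* Perm (ZMod p) := MonoidHom.mk' mulU hm
        exact (map_zpow H c k).symm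
      rw [h6, hk, mulU_apply]
      simp
  have hsup : (mulU u).support.card = p - 1 := by
    have : (mulU u).support = univ.erase 0 := by
      ext x
      rw [Perm.mem_support, mulU_apply, mem_erase]
      constructor
      · intro h
        refine ⟨?_, mem_univ _⟩
        intro h0
        apply h
        rw [h0, mul_zero]
      · rintro ⟨h0, _⟩ h
        apply hu1
        apply Units.ext
        rw [Units.val_one]
        exact mul_right_cancel₀ h0 (by rw [h, one_mul])
    rw [this, card_erase_of_mem (mem_univ _), card_univ, ZMod.card]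
  intro h
  have h7 := congrArg (fun f : (ZMod p)ˣ →* ℤ => f u) h
  simp only [sgnHom, MonoidHom.coe_mk, OneHom.coe_mk, MonoidHom.one_apply] at h7
  rw [hcyc.sign, hsup] at h7
  have hev : Even (p - 1) := hp.out.even_sub_one h2
  rw [hev.neg_one_pow] at h7
  simp at h7

lemma sum_sgn (h2 : p ≠ 2) : ∑ c : (ZMod p)ˣ, (((Perm.sign (mulU c) : ℤˣ) : ℤ)) = 0 :=
  sum_hom_units_eq_zero (sgnHom : (ZMod p)ˣ →* ℤ) (sgnHom_ne h2)

open Classical in
lemma orth_sum (h2 : p ≠ 2) :
    ∑ g ∈ (univ : Finset (Perm (ZMod p))).filter (fun g => Orth g),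
        (((Perm.sign g : ℤˣ) : ℤ) : ZMod p) = -1 := by
  rw [sum_fixed (p := p) _ Psi
    (by
      intro g hg
      simp only [mem_filter, mem_univ, true_and] at hg ⊢
      exact Psi_orth g hg)
    (by
      intro g hg
      simp only [mem_filter, mem_univ, true_and] at hg
      ext1 x
      rw [Psi_iter g hg.1]
      simp [hg.1])
    (fun g => (((Perm.sign g : ℤˣ) : ℤ) : ZMod p))
    (by intro g _; simp only [Psi_sign h2])]
  have h3 : ∑ g ∈ ((univ : Finset (Perm (ZMod p))).filter (fun g => Orth g)).filter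
      (fun g => Psi g = g), (((Perm.sign g : ℤˣ) : ℤ) : ZMod p) =
      ∑ c ∈ (univ : Finset (ZMod p)ˣ).erase 1, (((Perm.sign (mulU c) : ℤˣ) : ℤ) : ZMod p) := by
    symm
    refine Finset.sum_bij (fun c _ => mulU c) ?_ ?_ ?_ ?_
    · intro c hc
      simp only [mem_filter, mem_univ, true_and]
      exact ⟨mulU_orth c (mem_erase.mp hc).1, mulU_fixed c⟩
    · intro c _ d _ h
      have h4 := congrArg (fun e : Perm (ZMod p) => e 1) h
      simp only [mulU_apply, mul_one] at h4
      exact Units.ext h4
    · intro g hg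
      simp only [mem_filter, mem_univ, true_and] at hg
      have h5 := Psi_fixed g hg.1.1 hg.2
      have h6 : g 1 ≠ 0 := by
        intro h
        have : g 1 = g 0 := by rw [h, hg.1.1]
        exact one_ne_zero (g.injective this)
      refine ⟨Units.mk0 (g 1) h6, ?_, ?_⟩
      · rw [mem_erase]
        refine ⟨?_, mem_univ _⟩
        intro h
        have h7 : g 1 = 1 := by
          have := congrArg Units.val h
          simpa using this
        have h8 : (fun x => g x - x) 1 = (fun x => g x - x) 0 := by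
          simp only [h7, hg.1.1, sub_self]
        exact one_ne_zero (hg.1.2 h8)
      · ext1 x
        rw [mulU_apply, h5 x]
        rfl
    · intro c _
      rfl
  rw [h3]
  have h9 := Finset.sum_erase_add (univ : Finset (ZMod p)ˣ)
    (fun c => (((Perm.sign (mulU c) : ℤˣ) : ℤ) : ZMod p)) (mem_univ 1)
  have h10 : ∑ c : (ZMod p)ˣ, ((((Perm.sign (mulU c) : ℤˣ) : ℤ)) : ZMod p) = 0 := by
    have := congrArg (fun z : ℤ => (z : ZMod p)) (sum_sgn (p := p) h2)
    push_cast at this
    exact this
  rw [h10] at h9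
  have h11 : mulU (1 : (ZMod p)ˣ) = 1 := by ext1 x; simp [mulU_apply]
  rw [h11] at h9
  simp only [Perm.sign_one, Units.val_one, Int.cast_one] at h9
  linear_combination h9

/-- Signed count of reduced families of order `p + 1` modulo `p`. -/
theorem redSum_mod (h2 : p ≠ 2) : ((redSum (none : Option (ZMod p)) : ℤ) : ZMod p) = 1 := by
  rw [redSum_orth h2, orth_sum h2, neg_neg]

theorem redCount_succ (h2 : p ≠ 2) :
    ((((redCount (p + 1) 1 : ℤ) - redCount (p + 1) (-1) : ℤ)) : ZMod p) = (-1) ^ ((p + 1) / 2) := by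
  have h1 : ((redSum (0 : Fin (p + 1)) : ℤ) : ZMod p) = 1 := by
    have h5 := redSum_equiv ((finSuccEquiv p).trans
      (Equiv.optionCongr (Fintype.equivOfCardEq (by simp) : Fin p ≃ ZMod p))) 0
    have h6 : ((finSuccEquiv p).trans
      (Equiv.optionCongr (Fintype.equivOfCardEq (by simp) : Fin p ≃ ZMod p))) 0 = none := by
      simp [finSuccEquiv_zero]
    rw [h6] at h5
    rw [← redSum_mod h2, h5]
  rw [redCount_diff]
  push_cast
  rw [h1, mul_one]
  have hodd : Odd p := hp.out.odd_of_ne_two h2
  obtain ⟨r, hr⟩ := hodd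
  have h8 : (p + 1) * p / 2 = ((p + 1) / 2) * p := by
    have e1 : (p + 1) / 2 = r + 1 := by omega
    have e2 : (p + 1) * p = 2 * ((r + 1) * p) := by
      have : p + 1 = 2 * (r + 1) := by omega
      rw [this]; ring
    rw [e1, e2, Nat.mul_div_cancel_left _ (by norm_num)]
  rw [h8, mul_comm, pow_mul]
  have : Odd p := ⟨r, hr⟩
  rw [this.neg_one_pow]

end Pool.Agent.Helper60.Latin
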